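import Pool.Agent.Helper99.WP.GoalsW

/-! Packet WP DIA: the diamond property of cycle popping. -/

open Finset

namespace Pool.Agent.Helper75.WP

open Pool.Agent.Helper99.WP

variable {V : Type} [DecidableEq V]

omit [DecidableEq V] in
theorem cyc_inj {c : V → Option V} {C : Finset V} (h : IsCyc c C) {y y' : V} (hy : y ∈ C)
    (hy' : y' ∈ C) (e : c y = c y') : y = y' := by
  classical
  obtain ⟨-, h1, h2⟩ := h
  choose f hf using fun y : C => h1 y y.2
  let g : C → C := fun y => ⟨f y, (hf y).1⟩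
  have hg : Function.Surjective g := by
    intro z
    obtain ⟨y, hy, hyz⟩ := h2 z z.2
    refine ⟨⟨y, hy⟩, Subtype.ext ?_⟩
    have := (hf ⟨y, hy⟩).2
    change c y = _ at this
    rw [hyz] at this
    exact (Option.some_injective _ this).symm
  have hinj := Finite.injective_iff_surjective.2 hg
  have e1 : g ⟨y, hy⟩ = g ⟨y', hy'⟩ := by
    apply Subtype.ext
    change f _ = f _
    have a1 := (hf ⟨y, hy⟩).2
    have a2 := (hf ⟨y', hy'⟩).2
    change c y = _ at a1
    change c y' = _ at a2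
    rw [e, a2] at a1
    exact (Option.some_injective _ a1).symm
  exact congrArg Subtype.val (hinj e1)

omit [DecidableEq V] in
theorem cyc_maps {c : V → Option V} {C : Finset V} (h : IsCyc c C) {y z : V} (hy : y ∈ C)
    (e : c y = some z) : z ∈ C := by
  obtain ⟨z', hz', e'⟩ := h.2.1 y hy
  rw [e] at e'
  rw [Option.some_injective _ e']
  exact hz'

theorem cyc_inter {c : V → Option V} {C C' : Finset V} (h : IsCyc c C) (h' : IsCyc c C')
    {z : V} (hz : z ∈ C ∩ C') : ∃ y ∈ C ∩ C', c y = some z := by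
  have hex : ∀ y : (C ∩ C' : Finset V), ∃ z, z ∈ C ∩ C' ∧ c y = some z := by
    intro y
    obtain ⟨hy1, hy2⟩ := mem_inter.1 y.2
    obtain ⟨z, hz, e⟩ := h.2.1 y hy1
    exact ⟨z, mem_inter.2 ⟨hz, cyc_maps h' hy2 e⟩, e⟩
  choose f hf using hex
  let g : (C ∩ C' : Finset V) → (C ∩ C' : Finset V) := fun y => ⟨f y, (hf y).1⟩
  have hg : Function.Injective g := by
    intro y y' e
    have e1 : f y = f y' := congrArg Subtype.val e
    apply Subtype.ext
    apply cyc_inj h (mem_inter.1 y.2).1 (mem_inter.1 y'.2).1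
    rw [(hf y).2, (hf y').2, e1]
  obtain ⟨y, hy⟩ := Finite.injective_iff_surjective.1 hg ⟨z, hz⟩
  refine ⟨y, y.2, ?_⟩
  rw [(hf y).2]
  exact congrArg some (congrArg Subtype.val hy)

theorem cyc_sdiff {c : V → Option V} {C C' : Finset V} (h : IsCyc c C) (h' : IsCyc c C')
    (hne : (C' \ C).Nonempty) : IsCyc c (C' \ C) := by
  refine ⟨hne, ?_, ?_⟩
  · intro y hy
    obtain ⟨hy1, hy2⟩ := mem_sdiff.1 hy
    obtain ⟨z, hz, e⟩ := h'.2.1 y hy1
    refine ⟨z, mem_sdiff.2 ⟨hz, fun hzC => ?_⟩, e⟩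
    obtain ⟨y', hy', e'⟩ := cyc_inter h h' (mem_inter.2 ⟨hzC, hz⟩)
    have : y = y' := cyc_inj h' hy1 (mem_inter.1 hy').2 (e.trans e'.symm)
    rw [this] at hy2
    exact hy2 (mem_inter.1 hy').1
  · intro z hz
    obtain ⟨hz1, hz2⟩ := mem_sdiff.1 hz
    obtain ⟨y, hy, e⟩ := h'.2.2 z hz1
    exact ⟨y, mem_sdiff.2 ⟨hy, fun hyC => hz2 (cyc_maps h hyC e)⟩, e⟩

omit [DecidableEq V] in
theorem cyc_congr {c c' : V → Option V} {C : Finset V} (h : IsCyc c C) (e : ∀ y ∈ C, c y = c' y) :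
    IsCyc c' C := by
  obtain ⟨h0, h1, h2⟩ := h
  refine ⟨h0, fun y hy => ?_, fun z hz => ?_⟩
  · obtain ⟨z, hz, ez⟩ := h1 y hy
    exact ⟨z, hz, by rw [← e y hy]; exact ez⟩
  · obtain ⟨y, hy, ey⟩ := h2 z hz
    exact ⟨y, hy, by rw [← e y hy]; exact ey⟩

/-- One half of the diamond. -/
theorem half (ξ : V → ℕ → Option V) (n : V → ℕ) (C C' : Finset V) (h : IsCyc (top ξ n) C)
    (h' : IsCyc (top ξ n) C') : Relation.ReflGen (Step ξ) (pop n C) (pop n (C ∪ C')) := by
  by_cases hne : (C' \ C).Nonempty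
  · apply Relation.ReflGen.single
    refine ⟨C' \ C, ?_, ?_⟩
    · apply cyc_congr (cyc_sdiff h h' hne)
      intro y hy
      have hy2 := (mem_sdiff.1 hy).2
      simp [top, pop, hy2]
    · funext y
      by_cases h1 : y ∈ C
      · simp [pop, h1]
      · by_cases h2 : y ∈ C'
        · simp [pop, h1, h2]
        · simp [pop, h1, h2]
  · have hsub : C' ⊆ C := by
      rw [Finset.not_nonempty_iff_eq_empty, sdiff_eq_empty_iff_subset] at hne
      exact hne
    rw [union_eq_left.2 hsub]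

theorem DIA : DIA_stmt := by
  intro V _ ξ n m q hm hq
  obtain ⟨C, hC, rfl⟩ := hm
  obtain ⟨C', hC', rfl⟩ := hq
  refine ⟨pop n (C ∪ C'), half ξ n C C' hC hC', ?_⟩
  rw [union_comm]
  exact (half ξ n C' C hC' hC).to_reflTransGen

end Pool.Agent.Helper75.WP
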